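import Pool.Agent.K6.H56.AE7
import Pool.Agent.K6.H56.CF4
import Pool.Agent.Results.MP_e66f84_ag.SuperellipticTwists

/-!
# The section conjecture for superelliptic curves `a yⁿ = P(x)`: all norms `P` at once

Let `k` be any field finitely generated over `ℚ`, the fraction field of a domain `R` of characteristic
zero that is finitely generated as a ring, and let `f ∈ k[T]` be monic and separable of degree `d ≥ 1`, for
instance the minimal polynomial of a generator of an extension `E/k` of degree `d`.  For a finite
extension `L/k` let `E_L = L[T]/(f)`, in the example `E ⊗ L`.  We call `P ∈ L[x]` a norm if it is the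
norm of a polynomial `g ∈ E_L[x]`, that is, if

  `P(x) = ∏_θ g(θ, x)`   (the product over the roots `θ` of `f` in an algebraic closure of `L`),

where the leading coefficient of `g` is invertible in `E_L` and the conjugates `g(θ, x)` of `g` are
pairwise coprime.  For instance, for `L = k` every irreducible monic `P ∈ k[x]` is a norm if the field
generated by a root of `P` contains the field `E`, and so is every product of such polynomials without
multiple factors.

**Theorem** (for a fixed `f`).  Let `D ≥ 1` be such that some element of the absolute Galois group of `k`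
permutes the roots of `f` in cycles whose lengths are divisible by `gcd(2, D) D`.  Then for all `a ∈ R`
outside ONE set of density zero, which depends only on `f` and `D`, the following is true for ALL finite
extensions `L` of `k` whose degree is not divisible by `D`, ALL norms `P ∈ L[x]` and all `n` divisible
by `D`: the superelliptic curve `a yⁿ = P(x)` over `L` satisfies the section conjecture.  It has no point
over `L`, and the fundamental groups of its open subcurves and of all smooth curves over `L` that
dominate it have no sections over the absolute Galois group of `L`.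

For example, let `E/k` be a cubic extension, `D = 3`.  Then for almost all `a ∈ R` and for all irreducible
monic polynomials `P ∈ k[x]` of the degrees 6, 9, 12, ... such that `k[x]/(P)` contains `E`, the curves
`a y³ = P(x)` (their genus is not bounded) have no sections over all extensions of `k` of degree prime
to 3.

More generally we let the extension vary with the parameter.  Let `A ∈ k[t]`, `A ≠ 0`, let `F ∈ k[t][T]`
be monic in `T` of degree `d`, and let `τ` be a value of the parameter, in `k` or algebraic over `k`, such
that `F(τ, T)` is separable and some element of the absolute Galois group of `k(τ)` permutes its roots in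
cycles whose lengths are divisible by `gcd(2, D) D`.  Let `e` be the multiplicity of the zero `τ` of `A`.
Then for all `t ∈ R` outside a set of density zero the assertion above holds for `f = F(t, T)`, for
`a = A(t)` and for all finite extensions `L` of `k` such that `D` does not divide `e [L : k]`.  The theorem
for a fixed `f` is the case `A = t`, `τ = 0`, `F = f`.

The set of the exceptional `t` has density zero in a strong sense: for every `ε > 0` there is an ideal `I`
of `R` of finite index such that the exceptional `t` lie in at most `ε #(R/I)` residue classes modulo `I`.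

In the starting result `MP_e66f84_ag.SuperellipticTwists`, from which the definitions of the curves and
of the sections are taken, the polynomial on the right is fixed and the exceptional set depends on it, and
`L = k`.  Here the same exceptional set works for the infinitely many polynomials that are norms, over `k`
and over its extensions; they may have bad reduction everywhere.

Proof.  As in `NormCurvesInFamilies` (the same helper files) almost all `t` are such that `k` has a
discrete valuation with finite residue field at which `F(t, T)` is monic with a separable reduction whose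
irreducible factors have degrees divisible by `gcd(2, D) D`, and at which `A(t)` has the valuation `e`.
Let `s` be a section over `L`.  For a divisor `ℓ` of `D` and an extension of the valuation to `L`, chosen
as in the starting result `NormCurvesAnyField`, we consider the functions `g(θ, x)` on the curve.  At a
place where `x` is finite at most one of them has a zero, and at a place where `x` has a pole they all
have the same value.  By the equation of the curve all their ratios are therefore `ℓ`-th powers up to
units at all places.  So these ratios have `ℓ`-th roots in the maximal unramified extension, and by Kummer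
theory and the section `s` they are elements `c_{θθ'}` of the algebraic closure up to `ℓ`-th powers of
elements fixed by `s`.  The valuations of the `c_{θθ'}` modulo `ℓ` are additive and invariant under the
decomposition group, and it follows from the transitivity of this group on the roots of an irreducible
factor of the reduction of `F(t, T)` that the valuation of `A(t)` is divisible by `ℓ`, a contradiction.
The coefficients of `g` are arbitrary: no reduction of the curve is considered.
-/

set_option autoImplicit false

open Polynomial

namespace Pool.Agent.Results.MP_e66f84_ag.AllNormPolynomials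

open Pool.Agent.Results.MP_e66f84_ag.SuperellipticTwists (DensityZero NoPoint NoSection)

/-- The polynomial `F(t, T)` over `K`, for `F ∈ k[t][T]` (the outer variable is `T`) and an element `t`
of an extension field `K` of `k`. -/
noncomputable def fibre {k : Type} [Field k] (F : k[X][X]) {K : Type} [Field K] [Algebra k K] (t : K) :
    K[X] :=
  F.map (aeval (R := k) t).toRingHom

/-- Some element of the absolute Galois group of `K` permutes the roots of `f` in cycles whose lengths
are divisible by `N`: if its `n`-th power fixes a root, then `N` divides `n`. -/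
def CyclesDivisible {K : Type} [Field K] (N : ℕ) (f : K[X]) : Prop :=
  ∃ σ : AlgebraicClosure K ≃ₐ[K] AlgebraicClosure K,
    ∀ θ : AlgebraicClosure K, aeval θ f = 0 → ∀ n : ℕ, (σ ^ n) θ = θ → N ∣ n

/-- `P ∈ L[x]` is the norm of a polynomial `g ∈ (L[T]/(f))[x]`, given by an element of `L[T][x]` (the
outer variable is `x`), such that the leading coefficient of `g` is invertible in `L[T]/(f)` and the
conjugates `g(θ, x)` of `g` are pairwise coprime, where `θ` runs through the roots of `f` in the algebraic
closure of `L`: `P(x)` is the product of the `g(θ, x)`. -/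
def IsNorm {L : Type} [Field L] (f P : L[X]) : Prop :=
  ∃ g : L[X][X], IsCoprime g.leadingCoeff f ∧
    (∀ θ θ' : AlgebraicClosure L, aeval θ f = 0 → aeval θ' f = 0 → θ ≠ θ' →
      IsCoprime (fibre g θ) (fibre g θ')) ∧
    P.map (algebraMap L (AlgebraicClosure L)) =
      ((f.aroots (AlgebraicClosure L)).map fun θ => fibre g θ).prod

/-- The elements `t` of `R` which do not have the following property: `A(t)` is not zero, `F(t, T)` is
separable, and for all finite extensions `L` of `k` such that `D` does not divide `e [L : k]`, all
`P ∈ L[x]` that are norms from `L[T]/(F(t, T))` and all `n` divisible by `D`, the curve `A(t) yⁿ = P(x)`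
over `L` has neither points nor sections. -/
def Exceptional (R : Type) [CommRing R] {k : Type} [Field k] [Algebra R k] (A : k[X]) (F : k[X][X])
    (D e : ℕ) : Set R :=
  {t | ¬ (A.eval (algebraMap R k t) ≠ 0 ∧ (fibre F (algebraMap R k t)).Separable ∧
    ∀ (L : Type) [Field L] [Algebra k L] [FiniteDimensional k L], ¬ D ∣ e * Module.finrank k L →
      ∀ P : L[X], IsNorm ((fibre F (algebraMap R k t)).map (algebraMap k L)) P → ∀ n : ℕ, D ∣ n →
        NoPoint n (algebraMap k L (A.eval (algebraMap R k t))) P ∧
        NoSection n (algebraMap k L (A.eval (algebraMap R k t))) P)}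

section proof

open Pool.Agent.K6.H56.CF Pool.Agent.TH377.LocG

lemma fibre_eq {k : Type} [Field k] (F : k[X][X]) (t : k) : fibre F t = F.map (evalRingHom t) := by
  unfold fibre
  congr 1

lemma fib_eq {L : Type} [Field L] {B : Type} [Field B] [Algebra L B] (g : L[X][X]) (θ : B) :
    fibre g θ = fib g θ := rfl

lemma dvd_natDegree {κ : Type} [Field κ] (N : ℕ) : ∀ (m : ℕ) (P : κ[X]), P.natDegree = m → P ≠ 0 →
    FactorDiv N P → N ∣ P.natDegree := by
  intro m
  induction m using Nat.strong_induction_on with
  | _ m ih =>
    intro P hm hP h
    rcases Nat.eq_zero_or_pos P.natDegree with h0 | h0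
    · rw [h0]
      exact dvd_zero N
    · have hnu : ¬ IsUnit P := not_isUnit_of_natDegree_pos P h0
      obtain ⟨q, hq, Q, rfl⟩ := WfDvdMonoid.exists_irreducible_factor hnu hP
      have hQ : Q ≠ 0 := right_ne_zero_of_mul hP
      rw [natDegree_mul hq.ne_zero hQ] at hm ⊢
      have hq0 : 0 < q.natDegree := hq.natDegree_pos
      exact dvd_add (h q hq (dvd_mul_right _ _))
        (ih Q.natDegree (by omega) Q rfl hQ fun r hr hrQ => h r hr (hrQ.mul_left _))

/-- the local theorem -/
theorem local_all {k : Type} [Field k] [CharZero k] (O : ValuationSubring k)
    [IsDiscreteValuationRing O] {κ : Type} [Field κ] (ρ : O →+* κ) (hρ : Function.Surjective ρ)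
    (g : O[X]) (hg : g.Monic) (hs : (g.map ρ).Separable) (D : ℕ) (hD : D ≠ 0)
    (hσ : FactorDiv (Nat.gcd 2 D * D) (g.map ρ)) (f : k[X]) (hf : g.map (algebraMap O k) = f)
    (hfs : f.Separable) (a : k) (e : ℕ) (ϖ u : O) (hϖ : Irreducible ϖ) (hu : IsUnit u)
    (ha : a = (u : k) * (ϖ : k) ^ e) (L : Type) [Field L] [Algebra k L] [FiniteDimensional k L]
    (hL : ¬ D ∣ e * Module.finrank k L) (P : L[X]) (hP : IsNorm (f.map (algebraMap k L)) P) (n : ℕ)
    (hn : D ∣ n) : NoPoint n (algebraMap k L a) P ∧ NoSection n (algebraMap k L a) P := by
  obtain ⟨G, hlc, hcop, hPG⟩ := hP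
  have hczL : CharZero L := charZero_of_injective_algebraMap (algebraMap k L).injective
  have hm : ¬ (D : ℤ) ∣ (e : ℤ) * Module.finrank k L := by
    intro h
    apply hL
    exact_mod_cast h
  have ha' : a = algebraMap O k u * algebraMap O k ϖ ^ (e : ℤ) := by
    rw [zpow_natCast]
    exact ha
  have hsL : (f.map (algebraMap k L)).Separable := hfs.map
  have hfm : f.Monic := by
    rw [← hf]
    exact hg.map _
  have hfL0 : f.map (algebraMap k L) ≠ 0 := (hfm.map _).ne_zero
  -- D divides the degree of f
  have hDf : D ∣ (f.map (algebraMap k L)).natDegree := by
    rw [hfm.natDegree_map, ← hf, hg.natDegree_map, ← hg.natDegree_map ρ]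
    exact (Dvd.intro_left _ rfl : D ∣ Nat.gcd 2 D * D).trans
      (dvd_natDegree _ _ _ rfl (hg.map ρ).ne_zero hσ)
  -- the degree and the leading coefficient of P
  have hdegP : P.natDegree = (f.map (algebraMap k L)).natDegree * G.natDegree := by
    have h1 : (P.map (algebraMap L (AlgebraicClosure L))).natDegree = P.natDegree :=
      natDegree_map_eq_of_injective (RingHom.injective _) _
    rw [← h1, hPG, natDegree_multiset_prod _ (by
      intro h0
      obtain ⟨θ, hθ, h2⟩ := Multiset.mem_map.1 h0
      exact (fib_degree G _ hlc θ (mem_aroots.1 hθ).2).2 h2), Multiset.map_map]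
    have h2 : ∀ θ ∈ (f.map (algebraMap k L)).aroots (AlgebraicClosure L),
        (natDegree ∘ fun θ => fibre G θ) θ = (fun _ => G.natDegree) θ := by
      intro θ hθ
      exact (fib_degree G _ hlc θ (mem_aroots.1 hθ).2).1
    rw [Multiset.map_congr rfl h2, Multiset.map_const', Multiset.sum_replicate, smul_eq_mul]
    congr 1
    rw [← (IsAlgClosed.splits ((f.map (algebraMap k L)).map
      (algebraMap L (AlgebraicClosure L)))).natDegree_eq_card_roots]
    exact natDegree_map_eq_of_injective (RingHom.injective _) _
  have hlcP : algebraMap L (AlgebraicClosure L) P.leadingCoeff =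
      (((f.map (algebraMap k L)).aroots (AlgebraicClosure L)).map fun θ =>
        aeval θ G.leadingCoeff).prod := by
    rw [← leadingCoeff_map_of_injective (RingHom.injective _), hPG, leadingCoeff_multiset_prod,
      Multiset.map_map]
    refine congrArg Multiset.prod (Multiset.map_congr rfl fun θ hθ => ?_)
    change (fib G θ).coeff (fib G θ).natDegree = _
    rw [(fib_degree G _ hlc θ (mem_aroots.1 hθ).2).1, fib_coeff]
    rfl
  obtain ⟨key1, key2⟩ := poly_both.{0, 0, 0, 0, 0} (K := k) (L := L) D hD g hg
    (separable_residue ρ hρ g hs) (factorDiv_residue ρ hρ _ g hσ) ϖ u hϖ hu e hm a ha' n hn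
    (f.map (algebraMap k L)) (by rw [hf]) hsL G hlc hcop
  have hD2 : D ∣ Nat.gcd n P.natDegree := by
    rw [hdegP]
    exact Nat.dvd_gcd hn (hDf.mul_right _)
  obtain ⟨key3, -⟩ := poly_both.{0, 0, 0, 0, 0} (K := k) (L := L) D hD g hg
    (separable_residue ρ hρ g hs) (factorDiv_residue ρ hρ _ g hσ) ϖ u hϖ hu e hm a ha' _ hD2
    (f.map (algebraMap k L)) (by rw [hf]) hsL (C G.leadingCoeff) (by rwa [leadingCoeff_C]) (by
      intro θ θ' hθ hθ' _
      have h1 : fib (C G.leadingCoeff) θ = C (aeval θ G.leadingCoeff) := by
        unfold fib
        rw [map_C]
        rfl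
      have h2 : aeval θ G.leadingCoeff ≠ 0 := by
        intro h
        have h3 := (fib_degree (C G.leadingCoeff) _ (by rwa [leadingCoeff_C]) θ hθ).2
        rw [h1, h, C_0] at h3
        exact h3 rfl
      rw [h1]
      exact (isCoprime_one_left (x := fib (C G.leadingCoeff) θ')).of_isCoprime_of_dvd_left
        (isUnit_C.2 h2.isUnit).dvd)
  refine ⟨⟨?_, ?_⟩, ?_⟩
  · rintro ⟨x, y, hxy⟩
    refine key1 x y ?_
    have h1 : algebraMap L (AlgebraicClosure L) (P.eval x) =
        (P.map (algebraMap L (AlgebraicClosure L))).eval (algebraMap L (AlgebraicClosure L) x) := by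
      rw [eval_map, eval₂_at_apply]
    rw [hxy, h1, hPG, eval_multiset_prod, Multiset.map_map]
    rfl
  · rintro ⟨r, hr⟩
    refine key3 0 r ?_
    rw [hr, hlcP]
    refine congrArg Multiset.prod (Multiset.map_congr rfl fun θ _ => ?_)
    unfold fib
    rw [map_C, eval_C]
    rfl
  · intro F Ω _ _ _ _ _ _ _ x y U hxy hU
    have hcl : IsAlgClosed Ω := IsAlgClosure.isAlgClosed F
    have h4 := key2 F Ω x y U ?_ hU
    · exact ⟨fun s => h4.false ⟨s.toHom, s.cont, s.compat⟩⟩
    · let ι : AlgebraicClosure L →ₐ[L] Ω := IsAlgClosed.lift
      have h1 := congrArg (algebraMap F Ω) hxy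
      rw [map_mul, map_pow, ← IsScalarTower.algebraMap_apply] at h1
      rw [h1]
      have h2 : algebraMap F Ω (aeval x P) = (P.map (algebraMap L Ω)).eval (algebraMap F Ω x) := by
        rw [eval_map_algebraMap, aeval_algebraMap_apply]
      have h3 : P.map (algebraMap L Ω) =
          (((f.map (algebraMap k L)).aroots Ω).map fun θ => fib G θ).prod := by
        have h5 : P.map (algebraMap L Ω) = (P.map (algebraMap L (AlgebraicClosure L))).map
            (ι : AlgebraicClosure L →+* Ω) := by
          rw [Polynomial.map_map, AlgHom.comp_algebraMap]
        rw [h5, hPG, Polynomial.map_multiset_prod, Multiset.map_map, aroots_lift ι,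
          Multiset.map_map]
        refine congrArg Multiset.prod (Multiset.map_congr rfl fun θ _ => ?_)
        exact fib_map ι G θ
      rw [h2, h3, eval_multiset_prod, Multiset.map_map]
      rfl

end proof

/-- Let `R` be a domain of characteristic zero that is finitely generated as a ring, with fraction
field `k`; so `k` is any field finitely generated over `ℚ`.  Let `A ∈ k[t]`, `A ≠ 0`, and let
`F ∈ k[t][T]` be monic of degree `d ≥ 1` in `T`.  Let `τ` be a generator of an extension `K = k(τ)` of `k`
such that `F(τ, T)` is separable and some element of the absolute Galois group of `K` permutes its roots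
in cycles whose lengths are divisible by `gcd(2, D) D`, and let `e` be the multiplicity of the zero `τ` of
`A`.  Then for all `t ∈ R` outside a set of density zero: for all finite extensions `L` of `k` such that
`D` does not divide `e [L : k]`, all `P ∈ L[x]` that are norms of polynomials over `L[T]/(F(t, T))` with an
invertible leading coefficient and pairwise coprime conjugates, and all `n` divisible by `D`, the
superelliptic curve `A(t) yⁿ = P(x)` has no point over `L`, and the fundamental groups of its open
subcurves over `L` and of all smooth curves over `L` that dominate it have no sections. -/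
theorem result (R : Type) [CommRing R] [IsDomain R] [CharZero R] [Algebra.FiniteType ℤ R]
    (k : Type) [Field k] [Algebra R k] [IsFractionRing R k] (A : k[X]) (hA : A ≠ 0) (F : k[X][X])
    (hF : F.Monic) (hd : 0 < F.natDegree) (K : Type) [Field K] [Algebra k K] (τ : K)
    (hτ : IntermediateField.adjoin k {τ} = (⊤ : IntermediateField k K))
    (hsep : (fibre F τ).Separable) (D : ℕ) (hD : D ≠ 0)
    (h : CyclesDivisible (Nat.gcd 2 D * D) (fibre F τ)) :
    DensityZero (Exceptional R A F D (rootMultiplicity τ (A.map (algebraMap k K)))) := by
  have hcz : CharZero k := charZero_of_injective_algebraMap (IsFractionRing.injective R k)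
  obtain ⟨σ, hσ⟩ := h
  intro ε hε
  obtain ⟨I, hI, hIE⟩ := Pool.Agent.K6.H56.AE.density_gp_alg (R := R) K τ hτ A hA F hd 1 one_ne_zero
    (hF.natDegree_map _) hsep (fun n => Nat.gcd 2 D * D ∣ n) σ hσ ε hε
  refine ⟨I, hI, le_trans ?_ hIE⟩
  refine Nat.cast_le.2 (Set.ncard_le_ncard (Set.image_mono ?_) (Set.toFinite _))
  intro t ht hgood
  apply ht
  rw [← fibre_eq] at hgood
  obtain ⟨h1, -, h3, d, hd0, hgp⟩ := hgood
  refine ⟨h1, h3, ?_⟩
  intro L _ _ _ hL P hP n hn
  obtain ⟨O, hO, κ, i1, i2, ρ, g, ϖ, u, hρ, hgf, hg, hgs, hgS, hϖ, hu, hau, -⟩ :=
    hgp.monic (hF.map _) hd0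
  exact local_all O ρ hρ g hg hgs D hD (fun q hq hqg => hgS q hq hqg) _ hgf h3 _ _ ϖ u hϖ hu hau L
    hL P hP n hn

end Pool.Agent.Results.MP_e66f84_ag.AllNormPolynomials
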