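import Pool.Agent.K6.H88.SR.Fin
import Pool.Agent.K6.H88.SC.Fam
import Pool.Agent.K6.H88.SC.Cnt
import Pool.Agent.K6.H88.SC.Sep
import Pool.Agent.K6.H88.TC.FinC
import Pool.Agent.N922.PQ.Unr

/-!
# The section conjecture for the curves over the products of a positive proportion of all elliptic curves,
# over infinitely many number fields at once

Let `K / ℚ` be any finite Galois extension of 2-power degree in which the prime `2` is unramified (`K = ℚ`
is allowed), and `N` a number. For a finite set `S` of primes and an elliptic curve `E : y² = x³ + A x + B`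
over `ℚ` let `C(E)` be the class of all finite Galois extensions `M / ℚ` of 2-power degree in which `2` is
unramified, in which all `q ∈ S` split completely and in which a prime `q > N` is ramified only if
`x³ + A x + B` has no zero modulo `q`. Let `T(E)` be the set of the quadratic twists
`y² = x³ + A d² x + B d³` for all `d = 1` modulo `4` such that `x³ + A x + B` has no zero modulo all
prime factors `q > N` of `d` (`d = 1` is allowed).

Theorem, UNCONDITIONAL: there are a finite set `S` of primes, which split completely in `K`, and a set `𝒢` of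
elliptic curves `E` over `ℚ`, which contains a positive proportion of ALL elliptic curves over `ℚ`, ordered
by height, such that `K` is in the class `C(E)` of each `E` in `𝒢`, the fields in `C(E)` contain `√q`
for infinitely many primes `q`, and the following is true for all `E_1, …, E_r` in `𝒢` (`r ≥ 1`), ALL
`E_i'` in `T(E_i)`, `𝒜 = E_1' × … × E_r'`, and ALL fields `M` in `C(E_1) ∩ … ∩ C(E_r)`.

(a) Let `C` be any smooth curve over `M` (proper or not) with a map `P : C → 𝒜`, for instance a curve in `𝒜`, or a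
curve of genus at least two which dominates one of the `E_i'`, or `E_i'` itself. For all sections of
`π₁(C) → G_M`, and even of its geometrically pro-2 quotient, which are locally given by points or cusps
(locally geometric sections), the induced section of the geometrically pro-2 fundamental group of `𝒜` is
the section of the rational point `O = (O, …, O)` (the 2-power division points of `P` which are fixed by the
section are those given by `O`), and the local points of `C` at the places above two lie over `O`.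

(b) Let `K₀` be a subfield of `M` and `X ⊆ 𝒜 × ℙᵐ` any closed subvariety over `K₀` which has no points over
the origin `O` of `𝒜` over the completion `M_w` for one place `w` above two (for `m = 0` any closed subvariety of `𝒜`,
for instance a curve, which does not contain `O`). Then for ALL finitely generated fields `k` over `K₀` which
can be embedded over `K₀` in the field of Laurent series `M((T))` (for instance the function fields of all
varieties over `K₀` with a smooth point over `M`, all fields `M(T_1, …, T_l)` and all their subfields which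
contain `K₀`) and ALL smooth curves `C` over `k` with a map to `X` over `k`: `π₁(C) → G_k` and its geometrically
pro-2 quotient have no locally geometric sections, and `C` has no `k`-rational points or cusps. So the
section conjecture is true for the curves `C` over all these fields as far as the locally geometric
sections are concerned.

(c) An explicit family. Let `h = (t² + 1)(t² - 2)(t² + 2)` and let `g` be any polynomial over `ℤ` of degree at
most six with `g(0) = -1` which is prime to `h`. The hyperelliptic curve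

  `C_g : Y² = h (g³ + 256 A g h² + 4096 B h³)`

has smooth points over `ℝ` and over ALL fields `ℚ_p`, and this for all `A`, `B`. For `g = -1` and `A`, `B` odd it
is a smooth curve of genus 11 (the right hand side is separable of degree 24). But for the curves
`E' : y² = x³ + A x + B` in `T(E)`, `E` in `𝒢`, the curve `C_g` and all curves dominating it have no
locally geometric sections and no rational points over all finitely generated fields `k` which can be
embedded in `M((T))` for some field `M` in the class `C(E)`. (`C_g` has the map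
`(g / 16 h, Y / 64 h²)` to `E'`, and its points over `O` are given by `h = 0`, but `-1`, `2`, `-2` are not
squares in `M_w` for `w` above two.)

So the set `𝒢` does not depend on `M`, the twists and `k`, and each of these curves satisfies the
statements over infinitely many number fields, ramified at infinitely many primes.

Here `L` is the function field of `C`, `Ω` an algebraic closure of `L`, `U` the set of the valuation rings
of the closed points of `C`, and `R` an extension of `L` in `Ω` which contains the maximal extension of `L`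
unramified at the elements of `U`, or else contains the coordinates of all the points `Q` of the `E_i'` with
`2ⁿ Q = P_i` for some `n` (this is the case for the extension belonging to the geometrically pro-2
fundamental group). `B` is an algebraic closure of `k`.

The proof. By the theorem of `MP_788af2_nt.AllTwoExtensions` (based on the projects PQ and PV of helper922
in the starting files) there is a positive proportion of all `E` such that for all `M` in `C(E)` all
`E'` in `T(E)` have a trivial 2-Selmer group over `M`, so that `Ш(E'/M)[2^∞] = 0` and `E'(M) = 0`; these curves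
also satisfy the congruences `A` odd, `4 ∣ A - B`.
(1) A locally geometric section `s` gives the cocycles `g ↦ s(g) Q - Q`, `2ⁿ Q = P`, with values in
`E'[2ⁿ]`, which are locally the classes of points `P_v ∈ E'(M_v)`. For finitely generated fields `k` in
`M((T))` one gets such cocycles over `M` (helper890). As they are locally trivial in `E'` and of 2-power
order, they are trivial in `E'`, they come from `E'(M) = 0`, and so `Q` can be chosen such that `s` fixes it,
and `P_v` is divisible by `2ⁿ` in `E'(M_v)` for all `v`. (2) For `w` above two a point of `E'(M_w)` which is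
divisible by `2 ^ (n + 1)` is very close to `O`, `|x| ≥ 2 ^ (n + 1)`: this uses `A` odd, `4 ∣ A - B` and
`w(2) = 1`. (3) If this is so for all `n` and if the points lie on `X`, a limit is a point of `X` over `O`.
-/

set_option autoImplicit false

namespace Pool.Agent.Results.MP_e66f84_ag.EllipticPositiveProportion

open Filter NumberField IsDedekindDomain WeierstrassCurve Pool.Agent.TH954 Pool.Agent.W620.SC
open scoped Classical

/-- The equation `y ^ 2 = x ^ 3 + A x + B` with integers `A`, `B` defines an elliptic curve, and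
there is no prime `p` with `p ^ 4 ∣ A` and `p ^ 6 ∣ B`. Every elliptic curve over `ℚ` is isomorphic to
exactly one of these. -/
structure IsMinimal (A B : ℤ) : Prop where
  elliptic : 4 * A ^ 3 + 27 * B ^ 2 ≠ 0
  minimal : ∀ p : ℕ, p.Prime → ¬ ((p : ℤ) ^ 4 ∣ A ∧ (p : ℤ) ^ 6 ∣ B)

/-- The height. -/
def height (p : ℤ × ℤ) : ℤ := max (4 * |p.1| ^ 3) (27 * p.2 ^ 2)

/-- The set of all elliptic curves over `ℚ` of height at most `H`. -/
def Curves (H : ℕ) : Set (ℤ × ℤ) := {p | IsMinimal p.1 p.2 ∧ height p ≤ H}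

/-- The curve `y² = x³ + A x + B`, `p = (A, B)`. -/
def curve (k : Type) [Field k] (p : ℤ × ℤ) : WeierstrassCurve k := ⟨0, 0, 0, (p.1 : k), (p.2 : k)⟩

/-- The points of `𝒜 = E_1 × … × E_r` over the extension `L` of `k`, `E_i` the curve `p i`. -/
abbrev Pts {r : ℕ} (p : Fin r → ℤ × ℤ) (k L : Type) [Field k] [Field L] [Algebra k L] : Type :=
  ∀ i, ((curve k (p i)).baseChange L).toAffine.Point

/-- homogeneous coordinates of a point in the projective plane -/
def coords {F : Type} [Field F] {W : WeierstrassCurve F} : W.toAffine.Point → Fin 3 → F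
  | .zero => ![0, 1, 0]
  | .some x y _ => ![x, y, 1]

section subvarieties

/-- A closed subvariety over the number field `K₀` of `(ℙ²)ʳ × ℙᵐ`, given by the equations `G l = 0`, which are
homogeneous of degree `d l i` in the coordinates of the `i`-th plane and of degree `e l` in the coordinates
of `ℙᵐ` and have integral coefficients. It stands for its intersection with `E_1 × … × E_r × ℙᵐ`. -/
structure Subvariety (K₀ : Type) [Field K₀] [NumberField K₀] (r : ℕ) where
  m : ℕ
  q : ℕ
  G : Fin q → MvPolynomial ((Fin r × Fin 3) ⊕ Fin (m + 1)) (𝓞 K₀)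
  d : Fin q → Fin r → ℕ
  e : Fin q → ℕ
  homogeneous : ∀ l, ∀ x ∈ (G l).support,
    (∀ i, ∑ j, x (Sum.inl (i, j)) = d l i) ∧ ∑ s, x (Sum.inr s) = e l

variable {K₀ : Type} [Field K₀] [NumberField K₀] {r : ℕ}

/-- `X` has a point over `L` above the point of `(ℙ²)ʳ` with the homogeneous coordinates `V`. -/
def Subvariety.HasPoint (X : Subvariety K₀ r) {L : Type} [Field L] (φ : 𝓞 K₀ →+* L)
    (V : Fin r → Fin 3 → L) : Prop :=
  ∃ T : Fin (X.m + 1) → L, T ≠ 0 ∧
    ∀ l, MvPolynomial.eval₂ φ (Sum.elim (fun ij => V ij.1 ij.2) T) (X.G l) = 0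

/-- For some place `w` of `K` above two `X` has no points over `K_w` above the origin
`((0 : 1 : 0), …, (0 : 1 : 0))` of `𝒜`. -/
def Subvariety.EmptyFibre (X : Subvariety K₀ r) (K : Type) [Field K] [NumberField K]
    [Algebra K₀ K] : Prop :=
  ∃ w : HeightOneSpectrum (𝓞 K), (2 : 𝓞 K) ∈ w.asIdeal ∧
    ¬ X.HasPoint ((algebraMap K (w.adicCompletion K)).comp
      ((algebraMap K₀ K).comp (algebraMap (𝓞 K₀) K₀))) (fun _ => ![0, 1, 0])

/-- the homomorphism of `𝓞 K₀` to `L` -/
def toExt (K₀ k L : Type) [Field K₀] [Field k] [Field L] [Algebra K₀ k] [Algebra k L] :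
    𝓞 K₀ →+* L :=
  (algebraMap k L).comp ((algebraMap K₀ k).comp (algebraMap (𝓞 K₀) K₀))

end subvarieties

section sections

/-- The section `s` of `Gal(R/L) → Gal(B/k)` is given by a place of `R` with values in the algebraic
closure of `K_w` (a local point or cusp) for all finite places `w` of the number field `K` and all
embeddings of `k` in `K_w` which are the identity on `K₀` (that is, all `k`-algebra structures
on `K_w` which extend the given `K₀`-algebra structure). -/
def LocallyGeometric (K₀ : Type) [Field K₀] (K : Type) [Field K] [NumberField K]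
    [Algebra K₀ K] {k : Type} [Field k] [Algebra K₀ k] {L R B : Type} [Field L] [Field R] [Field B]
    [Algebra k L] [Algebra L R] [Algebra k R] [IsScalarTower k L R] [Algebra k B]
    (s : GalSection k L R B) : Prop :=
  ∀ (w : HeightOneSpectrum (𝓞 K)) [Algebra k (w.adicCompletion K)],
    (∀ x : K₀, algebraMap k (w.adicCompletion K) (algebraMap K₀ k x) =
      algebraMap K (w.adicCompletion K) (algebraMap K₀ K x)) →
    ∃ v : Plc k R (AlgebraicClosure (w.adicCompletion K)), s.GivenBy (w.adicCompletion K) v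

/-- `Gal(R/L)` is a large quotient of the absolute Galois group of `L`: the extension `R` of `L` in the
algebraic closure `Ω` contains the maximal extension which is unramified at the elements of a set `U`
of valuation rings of `L` over `k`, or it contains the coordinates of the points `Q` of `E_i` with
`2 ^ n Q = P i`. -/
def Large {r : ℕ} (p : Fin r → ℤ × ℤ) (k : Type) {L Ω R : Type} [Field k] [Field L] [Field Ω]
    [Field R] [Algebra k L] [Algebra L Ω] [Algebra L R] [Algebra k R] [IsScalarTower k L R]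
    (f : R →ₐ[L] Ω) (P : Pts p k L) : Prop :=
  (∃ U : Set (ValuationSubring L), (∀ O ∈ U, ∀ x : k, algebraMap k L x ∈ O) ∧
    unramified L Ω U ≤ f.fieldRange) ∨
  ∀ i, ∀ n : ℕ, ∃ Q : ((curve k (p i)).baseChange R).toAffine.Point,
    2 ^ n • Q = Affine.Point.map (W' := curve k (p i)) (IsScalarTower.toAlgHom k L R) (P i)

/-- `k` is a finitely generated field over `K₀` which can be embedded over `K₀` in the field of Laurent
series `K((T))`. -/
def Embeds (K₀ K k : Type) [Field K₀] [Field K] [Algebra K₀ K] [Field k] [Algebra K₀ k] : Prop :=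
  (⊤ : IntermediateField K₀ k).FG ∧ ∃ ψ : k →+* LaurentSeries K,
    ∀ x : K₀, ψ (algebraMap K₀ k x) = algebraMap K (LaurentSeries K) (algebraMap K₀ K x)

/-- `O` is a valuation ring of `L` over `k` with residue field `k` (a `k`-rational point of a smooth
projective model of `L`, or `L = k` and `O` trivial). -/
def IsRational (k : Type) {L : Type} [Field k] [Field L] [Algebra k L] (O : ValuationSubring L) :
    Prop :=
  (∀ c : k, algebraMap k L c ∈ O) ∧
    ∀ x ∈ O, ∃ c : k, x - algebraMap k L c = 0 ∨ (x - algebraMap k L c)⁻¹ ∉ O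

/-- Let `P` be a point of `𝒜` over the extension `L` of `k` (a map `C → 𝒜` over `k`, where `L` is the
function field of `C`). There is no `k`-rational point of `C` and no locally geometric section of
`Gal(R/L) → Gal(B/k)` for all large `R`, and all algebraic closures `B` of `k`. -/
def NoSections (K₀ : Type) [Field K₀] (K : Type) [Field K] [NumberField K]
    [Algebra K₀ K] {r : ℕ} (p : Fin r → ℤ × ℤ) {k L : Type} [Field k] [Algebra K₀ k] [Field L]
    [Algebra k L] (P : Pts p k L) : Prop :=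
  (∀ O : ValuationSubring L, ¬ IsRational k O) ∧
  ∀ (Ω R B : Type) [Field Ω] [Field R] [Field B] [Algebra L Ω] [Algebra k Ω] [Algebra L R]
    [Algebra k R] [Algebra k B] [IsScalarTower k L Ω] [IsScalarTower k L R] [IsAlgClosure L Ω]
    [IsAlgClosure k B] (f : R →ₐ[L] Ω), Large p k f P →
    ∀ s : GalSection k L R B, ¬ LocallyGeometric K₀ K s

/-- Let `P` be a point of `𝒜` over the extension `L` of `K` (a map `C → 𝒜` over `K`). Every locally
geometric section `s` of `Gal(R/L) → Gal(B/K)` induces the section of `O` on the geometrically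
pro-2 fundamental group of `𝒜`, that is, it fixes for all `i` and `n` a point `Q` of `E_i` with
`2 ^ n Q = P i`, and its local points at the places above two lie over `O`, that is, the
`x`-coordinates of the `P i` have poles there. -/
def SectionsOverOrigin (K : Type) [Field K] [NumberField K] {r : ℕ} (p : Fin r → ℤ × ℤ) : Prop :=
  ∀ (L Ω R B : Type) [Field L] [Field Ω] [Field R] [Field B] [Algebra K L] [Algebra L Ω]
    [Algebra K Ω] [Algebra L R] [Algebra K R] [Algebra K B] [IsScalarTower K L Ω]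
    [IsScalarTower K L R] [IsAlgClosure L Ω] [IsAlgClosure K B] (f : R →ₐ[L] Ω)
    (P : Pts p K L), Large p K f P →
    ∀ s : GalSection K L R B, LocallyGeometric K K s → ∀ i,
      (∀ n : ℕ, ∃ Q : ((curve K (p i)).baseChange R).toAffine.Point,
        2 ^ n • Q = Affine.Point.map (W' := curve K (p i)) (IsScalarTower.toAlgHom K L R) (P i) ∧
        ∀ g : B ≃ₐ[K] B, Affine.Point.map (W' := curve K (p i))
          ((s.s g : R →ₐ[L] R).restrictScalars K) Q = Q) ∧
      ∀ w : HeightOneSpectrum (𝓞 K), (2 : 𝓞 K) ∈ w.asIdeal →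
        ∀ v : Plc K R (AlgebraicClosure (w.adicCompletion K)), s.GivenBy (w.adicCompletion K) v →
          ∀ x y h, P i = .some x y h → algebraMap L R x ∉ v.W

end sections

section family

open Polynomial

/-- `h = (t² + 1)(t² - 2)(t² + 2)` -/
noncomputable def hpol : ℤ[X] := (X ^ 2 + 1) * (X ^ 2 - 2) * (X ^ 2 + 2)

/-- `h (g³ + 256 A g h² + 4096 B h³)` -/
noncomputable def rpol (p : ℤ × ℤ) (g : ℤ[X]) : ℤ[X] :=
  hpol * (g ^ 3 + 256 * C p.1 * g * hpol ^ 2 + 4096 * C p.2 * hpol ^ 3)

/-- the condition on `g` -/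
structure Admissible (g : ℤ[X]) : Prop where
  deg : g.natDegree ≤ 6
  zero : g.eval 0 = -1
  coprime : IsCoprime (g.map (Int.castRingHom ℚ)) (hpol.map (Int.castRingHom ℚ))

/-- `C_g : Y² = R(t)` has a smooth point over the field `F` -/
def SmoothPoint (F : Type) [Field F] (R : ℤ[X]) : Prop :=
  ∃ t Y : F, Y ^ 2 = aeval t R ∧ (Y ≠ 0 ∨ aeval t (derivative R) ≠ 0)

/-- The map `C_g → E`: the point of `E` over `L` given by the point `(t, Y)` of `C_g` over `L` is
`(g / 16 h, Y / 64 h²)`. -/
def IsImage (p : ℤ × ℤ) (g : ℤ[X]) {k L : Type} [Field k] [Field L] [Algebra k L] (t Y : L)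
    (P : ((curve k p).baseChange L).toAffine.Point) : Prop :=
  ∃ h, P = .some (aeval t g / (16 * aeval t hpol)) (Y / (64 * (aeval t hpol) ^ 2)) h

/-- Let `k` be any finitely generated field which can be embedded in `K((T))` and let `(t, Y)` be a point
of `C_g`, `Y ≠ 0`, over the extension `L` of `k` (for instance `L` is the function field of a curve which
dominates `C_g`). Then `L` has no `k`-rational valuation ring and no locally geometric sections. -/
def FamilyNoSections (K : Type) [Field K] [NumberField K] (p : ℤ × ℤ) : Prop :=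
  ∀ g : ℤ[X], Admissible g → ∀ (k L : Type) [Field k] [CharZero k] [Field L] [Algebra k L],
    (⊤ : IntermediateField ℚ k).FG → Nonempty (k →+* LaurentSeries K) →
    ∀ t Y : L, Y ≠ 0 → Y ^ 2 = aeval t (rpol p g) →
      ∃ P : ((curve k p).baseChange L).toAffine.Point, IsImage p g t Y P ∧
        NoSections ℚ K (fun _ : Fin 1 => p) (fun _ => P)

end family

/-- The set `𝒢` contains a positive proportion of all elliptic curves over `ℚ`. -/
def PositiveProportion (𝒢 : Set (ℤ × ℤ)) : Prop :=
  (∀ H : ℕ, (Curves H).Finite) ∧ ∃ c : ℝ, 0 < c ∧ ∀ᶠ H : ℕ in atTop,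
    0 < (Curves H).ncard ∧ c * ((Curves H).ncard : ℝ) ≤ (({p ∈ Curves H | p ∈ 𝒢}).ncard : ℝ)

/-- The polynomial `X³ + A X + B`, `p = (A, B)`, has no zero modulo `q`. -/
def NoZero (p : ℤ × ℤ) (q : ℕ) : Prop := ∀ z : ℤ, ¬ (q : ℤ) ∣ z ^ 3 + p.1 * z + p.2

/-- The prime `q` is unramified in `M`. -/
def Unramified (M : Type) [Field M] [NumberField M] (q : ℕ) : Prop :=
  ∀ 𝔭 : Ideal (𝓞 M), 𝔭.IsPrime → (q : 𝓞 M) ∉ 𝔭 ^ 2

/-- The prime `q` splits completely in `M`: it is unramified, and every integer of `M` is congruent to an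
element of `ℤ` modulo every prime over `q`. -/
def SplitsCompletely (M : Type) [Field M] [NumberField M] (q : ℕ) : Prop :=
  Unramified M q ∧ ∀ 𝔭 : Ideal (𝓞 M), 𝔭.IsPrime → (q : 𝓞 M) ∈ 𝔭 → ∀ x : 𝓞 M, ∃ n : ℤ, x - n ∈ 𝔭

/-- The class `C(E)` of the curve given by `p = (A, B)`: the Galois extensions `M / ℚ` of 2-power degree in
which `2` is unramified, in which the primes in `S` split completely and in which only such primes
`q > N` are ramified modulo which `X³ + A X + B` has no zero. -/
structure InClass (N : ℕ) (S : Finset ℕ) (p : ℤ × ℤ) (M : Type) [Field M] [NumberField M] :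
    Prop where
  galois : IsGalois ℚ M
  degree : ∃ n : ℕ, Module.finrank ℚ M = 2 ^ n
  two : Unramified M 2
  split : ∀ q ∈ S, SplitsCompletely M q
  ramified : ∀ q : ℕ, q.Prime → ¬ Unramified M q → q ≤ N ∨ NoZero p q

/-- The curve given by `p'` is a quadratic twist `y² = x³ + A d² x + B d³` of the curve given by
`p = (A, B)`, where `d = 1` modulo `4` and the prime factors `q` of `d` are at most `N` or such that
`X³ + A X + B` has no zero modulo `q` (`d = 1` is allowed). -/
def IsTwist (N : ℕ) (p p' : ℤ × ℤ) : Prop :=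
  ∃ d : ℤ, p' = (p.1 * d ^ 2, p.2 * d ^ 3) ∧ d % 4 = 1 ∧
    ∀ q : ℕ, q.Prime → (q : ℤ) ∣ d → q ≤ N ∨ NoZero p q

/-- The properties of the set `𝒢` of elliptic curves `E : y² = x³ + A x + B`, `(A, B) ∈ 𝒢`. Here `p i` are
curves in `𝒢`, `p' i` twists of them, and `M` is in the classes of all the curves `p i`. -/
structure Good (N : ℕ) (S : Finset ℕ) (𝒢 : Set (ℤ × ℤ)) : Prop where
  /-- (a) all locally geometric sections of all curves over `M` with a map to `𝒜` lie over `O` -/
  over_origin : ∀ (r : ℕ) (p p' : Fin (r + 1) → ℤ × ℤ), (∀ i, p i ∈ 𝒢) →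
    (∀ i, IsTwist N (p i) (p' i)) → ∀ (M : Type) [Field M] [NumberField M],
    (∀ i, InClass N S (p i) M) → SectionsOverOrigin M p'
  /-- (b) subvarieties of `𝒜 × ℙᵐ` without points over `O` at a place above two -/
  subvarieties : ∀ (r : ℕ) (p p' : Fin (r + 1) → ℤ × ℤ), (∀ i, p i ∈ 𝒢) →
    (∀ i, IsTwist N (p i) (p' i)) → ∀ (M : Type) [Field M] [NumberField M],
    (∀ i, InClass N S (p i) M) →
    ∀ (K₀ : Type) [Field K₀] [NumberField K₀] [Algebra K₀ M] (X : Subvariety K₀ (r + 1)),
    X.EmptyFibre M → ∀ (k L : Type) [Field k] [Algebra K₀ k] [Field L] [Algebra k L],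
      Embeds K₀ M k → ∀ P : Pts p' k L,
        X.HasPoint (toExt K₀ k L) (fun i => coords (P i)) → NoSections K₀ M p' P
  /-- (c) the curves `C_g` -/
  family : ∀ p ∈ 𝒢, ∀ p', IsTwist N p p' → ∀ (M : Type) [Field M] [NumberField M],
    InClass N S p M → FamilyNoSections M p'
  /-- `C_g` for `g = -1` is a smooth curve of genus 11 -/
  genus : Admissible (-1) ∧ ∀ p ∈ 𝒢, ∀ p', IsTwist N p p' →
    ((rpol p' (-1)).map (Int.castRingHom ℚ)).Separable ∧ (rpol p' (-1)).natDegree = 24
  /-- the fields in the class contain the square roots of infinitely many primes -/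
  infinite : ∀ p ∈ 𝒢, {q : ℕ | q.Prime ∧ ∃ (M : Type) (_ : Field M) (_ : NumberField M),
    InClass N S p M ∧ ∃ x : M, x ^ 2 = (q : M)}.Infinite

section proofs

open Pool.Agent.K6.H88 Pool.Agent.N89.CI

variable {K : Type} [Field K] [NumberField K]

theorem coords_eq {F : Type} [Field F] {W : WeierstrassCurve F} (P : W.toAffine.Point) :
    coords P = crd P := by
  cases P <;> rfl

/-- the elliptic curves of the set `𝒢` -/
structure InG (K : Type) [Field K] [NumberField K] (p : ℤ × ℤ) : Prop where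
  ell : 4 * p.1 ^ 3 + 27 * p.2 ^ 2 ≠ 0
  good : SC.GoodC (M := K) (𝓞 K) p

theorem sections_over_origin (h2 : ∀ 𝔭 : Ideal (𝓞 K), 𝔭.IsPrime → (2 : 𝓞 K) ∉ 𝔭 ^ 2)
    {r : ℕ} (p : Fin r → ℤ × ℤ) (hp : ∀ i, InG K (p i)) : SectionsOverOrigin K p := by
  intro L Ω R B _ _ _ _ _ _ _ _ _ _ _ _ _ _ f P hL s hs i
  obtain ⟨hell, ⟨-, hpt, hsha⟩, hA, hAB⟩ := hp i
  have : Algebra.IsAlgebraic L Ω := IsAlgClosure.isAlgebraic
  have : Algebra.IsAlgebraic L R := Algebra.IsAlgebraic.of_injective f f.injective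
  have hD : 4 * ((p i).1 : K) ^ 3 + 27 * ((p i).2 : K) ^ 2 ≠ 0 := by exact_mod_cast hell
  have hdiv : ∀ n : ℕ, ∃ Q : ((Pool.Agent.TH942.sw ((p i).1 : K) ((p i).2 : K)).baseChange
      R).toAffine.Point, 2 ^ n • Q =
      pm (Pool.Agent.TH942.sw ((p i).1 : K) ((p i).2 : K)) (IsScalarTower.toAlgHom K L R) (P i) := by
    rcases hL with ⟨U, hU, he⟩ | h
    · intro n
      exact Pool.Agent.N890.US.div_of_large ((p i).1 : K) ((p i).2 : K) hD f s U hU he (P i)
        Nat.one_le_two_pow
    · exact h i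
  have hs' : ∀ w : HeightOneSpectrum (𝓞 K),
      ∃ v : Plc K R (AlgebraicClosure (w.adicCompletion K)), s.GivenBy (w.adicCompletion K) v :=
    fun w => hs w (fun _ => rfl)
  refine ⟨?_, fun w hw v hv x y h hP => ?_⟩
  · choose v hv using hs'
    exact (SC.sections (p i).1 (p i).2 hA hAB hD hsha hpt (P i) hdiv s v hv).1
  · choose v' hv' using hs'
    have h3 := (SC.sections (p i).1 (p i).2 hA hAB hD hsha hpt (P i) hdiv s
      (Function.update v' w v) (fun w' => by
        by_cases hw' : w' = w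
        · subst hw'
          rw [Function.update_self]
          exact hv
        · rw [Function.update_of_ne hw']
          exact hv' w')).2 w (Pool.Agent.N922.PQ.val_two_of h2 w (by
            unfold Pool.Agent.N922.PQ.Ov
            exact_mod_cast hw)) x y h hP
    rw [Function.update_self] at h3
    exact h3

theorem no_sections (h2 : ∀ 𝔭 : Ideal (𝓞 K), 𝔭.IsPrime → (2 : 𝓞 K) ∉ 𝔭 ^ 2)
    {r : ℕ} {p : Fin r → ℤ × ℤ} (hp : ∀ i, InG K (p i))
    {K₀ : Type} [Field K₀] [NumberField K₀] [Algebra K₀ K] (X : Subvariety K₀ r)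
    (hX : X.EmptyFibre K) {k L : Type} [Field k] [Algebra K₀ k] [Field L] [Algebra k L]
    (hk : Embeds K₀ K k) (P : Pts p k L)
    (hP : X.HasPoint (toExt K₀ k L) (fun i => coords (P i))) : NoSections K₀ K p P := by
  obtain ⟨w, hw, hno⟩ := hX
  obtain ⟨hfg, ψ, hψ⟩ := hk
  obtain ⟨T, hT, h0⟩ := hP
  have hc : (fun i => coords (P i)) = fun i => crd (P i) := funext fun i => coords_eq (P i)
  rw [hc] at h0
  have hwv := Pool.Agent.N922.PQ.val_two_of h2 w (by
    unfold Pool.Agent.N922.PQ.Ov
    exact_mod_cast hw)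
  refine ⟨fun O hO => ?_, ?_⟩
  · exact SR.no_place hfg ψ hψ (fun i => (hp i).good.2.1) (fun i => (hp i).good.2.2)
      (fun i => (hp i).ell) (fun i => (hp i).good.1.2.2) (fun i => (hp i).good.1.2.1) X.G X.d X.e
      X.homogeneous w hwv hno P T hT h0 O hO
  · intro Ω R B _ _ _ _ _ _ _ _ _ _ _ _ f hL s hs
    exact SR.no_sections hfg ψ hψ (fun i => (hp i).good.2.1) (fun i => (hp i).good.2.2)
      (fun i => (hp i).ell) (fun i => (hp i).good.1.2.2) (fun i => (hp i).good.1.2.1) X.G X.d X.e
      X.homogeneous w hwv hno f P T hT h0 s hL.symm hs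

/-- the curves `C_g` as subvarieties of `E × ℙ¹` -/
noncomputable def cg (p : ℤ × ℤ) (g : Polynomial ℤ) : Subvariety ℚ 1 where
  m := 1
  q := 2
  G := fun l => SC.form1 (𝓞 ℚ) p.1 p.2 g l
  d := fun l _ => (SC.bideg l).1
  e := fun l => (SC.bideg l).2
  homogeneous := fun l => SC.form1_homog (R := 𝓞 ℚ) p.1 p.2 g l

theorem cg_point {L : Type} [Field L] (φ : 𝓞 ℚ →+* L) (p : ℤ × ℤ) (g : Polynomial ℤ)
    (V : Fin 1 → Fin 3 → L) : (cg p g).HasPoint φ V ↔ ∃ T : Fin (1 + 1) → L, T ≠ 0 ∧
      ∀ l : Fin 2, MvPolynomial.eval₂ φ (Sum.elim (V 0) T) (SC.form (𝓞 ℚ) p.1 p.2 g l) = 0 := by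
  have e : ∀ (T : Fin (1 + 1) → L) (l : Fin 2),
      MvPolynomial.eval₂ φ (Sum.elim (fun ij : Fin 1 × Fin 3 => V ij.1 ij.2) T)
        (SC.form1 (𝓞 ℚ) p.1 p.2 g l) =
      MvPolynomial.eval₂ φ (Sum.elim (V 0) T) (SC.form (𝓞 ℚ) p.1 p.2 g l) :=
    fun T l => SC.form1_val φ p.1 p.2 g l V T
  constructor
  · rintro ⟨T, hT, h⟩
    exact ⟨T, hT, fun l => (e T l).symm.trans (h l)⟩
  · rintro ⟨T, hT, h⟩
    exact ⟨T, hT, fun l => (e T l).trans (h l)⟩

theorem cg_emptyFibre (h2 : ∀ 𝔭 : Ideal (𝓞 K), 𝔭.IsPrime → (2 : 𝓞 K) ∉ 𝔭 ^ 2)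
    (p : ℤ × ℤ) (g : Polynomial ℤ) : (cg p g).EmptyFibre K := by
  obtain ⟨w, hw⟩ := Pool.Agent.N922.PQ.exists_over (𝓞 K)
  refine ⟨w, by unfold Pool.Agent.N922.PQ.Ov at hw; exact_mod_cast hw, fun hpt => ?_⟩
  obtain ⟨T, hT, h0⟩ := (cg_point _ p g _).1 hpt
  have : CharZero (w.adicCompletion K) :=
    charZero_of_injective_algebraMap (algebraMap K (w.adicCompletion K)).injective
  obtain ⟨z, hz⟩ := SC.form_origin _ hT h0
  have hv' : (Valued.v : Valuation (w.adicCompletion K) (WithZero (Multiplicative ℤ))) 2 =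
      WithZero.exp (-1 : ℤ) := by
    have e := w.valuedAdicCompletion_eq_valuation' (K := K) (2 : K)
    rw [← Pool.Agent.N922.PQ.val_two_of h2 w hw, ← e]
    congr 1
    exact (map_ofNat (algebraMap K (w.adicCompletion K)) 2).symm
  exact SC.no_root Valued.v hv' z hz

theorem mk_point {k L : Type} [Field k] [Field L] [Algebra k L] [CharZero L] {p : ℤ × ℤ}
    (hell : 4 * p.1 ^ 3 + 27 * p.2 ^ 2 ≠ 0) {x y : L}
    (h : y ^ 2 = x ^ 3 + (p.1 : L) * x + (p.2 : L)) :
    ((curve k p).baseChange L).toAffine.Nonsingular x y := by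
  have e : (curve k p).baseChange L = curve L p := by
    ext <;> simp [curve, WeierstrassCurve.baseChange, WeierstrassCurve.map]
  rw [e]
  refine (Affine.equation_iff_nonsingular_of_Δ_ne_zero ?_).1 ((Affine.equation_iff _ _).2 ?_)
  · have h1 : (curve L p).Δ = -16 * (4 * (p.1 : L) ^ 3 + 27 * (p.2 : L) ^ 2) := by
      simp only [curve, WeierstrassCurve.Δ, WeierstrassCurve.b₂, WeierstrassCurve.b₄,
        WeierstrassCurve.b₆, WeierstrassCurve.b₈]
      ring
    change (curve L p).Δ ≠ 0
    rw [h1]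
    refine mul_ne_zero (by norm_num) ?_
    exact_mod_cast hell
  · simp only [curve]
    linear_combination h

theorem family (h2 : ∀ 𝔭 : Ideal (𝓞 K), 𝔭.IsPrime → (2 : 𝓞 K) ∉ 𝔭 ^ 2) {p : ℤ × ℤ}
    (hp : InG K p) : FamilyNoSections K p := by
  intro g hadm k L _ _ _ _ hfg hψ t Y hY0 hY
  obtain ⟨ψ⟩ := hψ
  have : CharZero L := charZero_of_injective_algebraMap (algebraMap k L).injective
  obtain ⟨hh, hxy⟩ := SC.point_of (A := p.1) (B := p.2) (g := g) hY hY0
  refine ⟨.some _ _ (mk_point hp.ell hxy), ⟨_, rfl⟩, ?_⟩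
  refine no_sections h2 (fun _ => hp) (cg p g) (cg_emptyFibre h2 p g) ⟨hfg, ψ, fun x => ?_⟩ _
    ((cg_point _ p g _).2 ⟨![t, 1], ?_, fun l => ?_⟩)
  · exact RingHom.congr_fun (RingHom.ext_rat (ψ.comp (algebraMap ℚ k))
      ((algebraMap K (LaurentSeries K)).comp (algebraMap ℚ K))) x
  · intro h
    have := congrFun h 1
    simp at this
  · exact SC.form_zero _ hadm.deg hh rfl hxy l

theorem admissible_neg_one : Admissible (-1) := by
  refine ⟨?_, ?_, ?_⟩
  · simp
  · simp
  · rw [Polynomial.map_neg, Polynomial.map_one]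
    exact isCoprime_one_left.neg_left

theorem crv_iff (X : ℕ) (p : ℤ × ℤ) : Pool.Agent.N922.PQ.Crv X p.1 p.2 ↔ p ∈ Curves X := by
  constructor
  · rintro ⟨h1, h2, h3, h4⟩
    exact ⟨⟨h1, h2⟩, max_le h3 h4⟩
  · rintro ⟨⟨h1, h2⟩, h3⟩
    exact ⟨h1, h2, (le_max_left _ _).trans h3, (le_max_right _ _).trans h3⟩

theorem nonempty {X : ℕ} (hX : 27 ≤ X) : ((1, 1) : ℤ × ℤ) ∈ Curves X := by
  refine ⟨⟨by norm_num, ?_⟩, ?_⟩
  · rintro p hp ⟨h, -⟩
    have h1 : ((p : ℤ)) ∣ 1 := (dvd_pow_self (p : ℤ) (by norm_num)).trans h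
    have h2 : p ∣ 1 := by exact_mod_cast h1
    exact hp.one_lt.ne' (Nat.dvd_one.1 h2)
  · have : height ((1, 1) : ℤ × ℤ) = 27 := by
      simp [height]
    rw [this]
    exact_mod_cast hX

open Pool.Agent.N922.PQ (Ov IsPr)
open Pool.Agent.K6.H88.TC

theorem unr_iff {M : Type} [Field M] [NumberField M] {q : ℕ} (hq : q ≠ 0) :
    Unramified M q ↔ Unr M (q : ℤ) := by
  have e : ∀ w : HeightOneSpectrum (𝓞 M), w.valuation M ((q : ℤ) : M) = w.intValuation (q : 𝓞 M) := by
    intro w
    rw [← HeightOneSpectrum.valuation_of_algebraMap (K := M)]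
    congr 1
    push_cast
    rfl
  constructor
  · intro h w hw
    rw [e]
    have h2 : (q : 𝓞 M) ∈ w.asIdeal := by
      have := hw
      unfold Ov at this
      simpa using this
    have h3 := h w.asIdeal w.isPrime
    have a1 : w.intValuation (q : 𝓞 M) ≤ WithZero.exp (-((1 : ℕ) : ℤ)) := by
      rw [HeightOneSpectrum.intValuation_le_pow_iff_mem, pow_one]
      exact h2
    have a2 : ¬ w.intValuation (q : 𝓞 M) ≤ WithZero.exp (-((2 : ℕ) : ℤ)) := by
      rw [HeightOneSpectrum.intValuation_le_pow_iff_mem]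
      exact h3
    have h0 : w.intValuation (q : 𝓞 M) ≠ 0 := by
      intro h0
      apply a2
      rw [h0]
      exact zero_le'
    rw [← WithZero.exp_log h0] at a1 a2 ⊢
    rw [WithZero.exp_le_exp] at a1 a2
    congr 1
    push_cast at a1 a2
    omega
  · intro h 𝔭 h𝔭 hq2
    have hne : 𝔭 ≠ ⊥ := by
      rintro rfl
      rw [Ideal.bot_pow (by norm_num), Ideal.mem_bot] at hq2
      exact hq (by exact_mod_cast hq2)
    let w : HeightOneSpectrum (𝓞 M) := ⟨𝔭, h𝔭, hne⟩
    have hw : Ov (q : ℤ) w := by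
      change ((q : ℤ) : 𝓞 M) ∈ 𝔭
      have := Ideal.pow_le_self (by norm_num : 2 ≠ 0) hq2
      simpa using this
    have h1 := h w hw
    rw [e] at h1
    have h2 : w.intValuation (q : 𝓞 M) ≤ WithZero.exp (-((2 : ℕ) : ℤ)) := by
      rw [HeightOneSpectrum.intValuation_le_pow_iff_mem]
      exact hq2
    rw [h1, WithZero.exp_le_exp] at h2
    norm_num at h2

theorem spl_iff {M : Type} [Field M] [NumberField M] {q : ℕ} (hq : q ≠ 0) :
    SplitsCompletely M q ↔ Spl M (q : ℤ) := by
  constructor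
  · rintro ⟨h1, h2⟩ w hw
    refine ⟨(unr_iff hq).1 h1 w hw, h2 w.asIdeal w.isPrime ?_⟩
    have := hw
    unfold Ov at this
    simpa using this
  · intro h
    refine ⟨(unr_iff hq).2 fun w hw => (h w hw).1, fun 𝔭 h𝔭 hq𝔭 => ?_⟩
    have hne : 𝔭 ≠ ⊥ := by
      rintro rfl
      rw [Ideal.mem_bot] at hq𝔭
      exact hq (by exact_mod_cast hq𝔭)
    refine (h ⟨𝔭, h𝔭, hne⟩ ?_).2
    change ((q : ℤ) : 𝓞 M) ∈ 𝔭
    simpa using hq𝔭

theorem cls_iff {N : ℕ} {S : Finset ℤ} (hS : ∀ Q ∈ S, IsPr Q) {p : ℤ × ℤ} {M : Type} [Field M]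
    [NumberField M] : InClass N (S.image Int.toNat) p M ↔ InCls N S p.1 p.2 M := by
  have hnat : ∀ P : ℤ, IsPr P → ∃ q : ℕ, P = q ∧ q.Prime := by
    intro P hP
    obtain ⟨q, rfl⟩ : ∃ q : ℕ, P = q := ⟨P.toNat, by have := hP.1; omega⟩
    exact ⟨q, rfl, Nat.prime_iff_prime_int.2 hP.2⟩
  constructor
  · rintro ⟨h1, h2, h3, h4, h5⟩
    refine ⟨h1, h2, by exact_mod_cast (unr_iff two_ne_zero).1 h3, fun Q hQ => ?_, fun P hP hu => ?_⟩
    · obtain ⟨q, rfl, hq⟩ := hnat Q (hS Q hQ)
      exact (spl_iff hq.ne_zero).1 (h4 q (Finset.mem_image.2 ⟨q, hQ, by simp⟩))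
    · obtain ⟨q, rfl, hq⟩ := hnat P hP
      rcases h5 q hq fun h => hu ((unr_iff hq.ne_zero).1 h) with h | h
      · left
        exact_mod_cast h
      · exact Or.inr h
  · rintro ⟨h1, h2, h3, h4, h5⟩
    refine ⟨h1, h2, (unr_iff two_ne_zero).2 (by exact_mod_cast h3), fun q hq => ?_,
      fun q hq hu => ?_⟩
    · obtain ⟨Q, hQ, rfl⟩ := Finset.mem_image.1 hq
      obtain ⟨r, rfl, hr⟩ := hnat Q (hS Q hQ)
      rw [Int.toNat_natCast]
      exact (spl_iff hr.ne_zero).2 (h4 _ hQ)
    · rcases h5 q ⟨by exact_mod_cast hq.pos, Nat.prime_iff_prime_int.1 hq⟩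
        fun h => hu ((unr_iff hq.ne_zero).2 h) with h | h
      · left
        exact_mod_cast h
      · exact Or.inr h

/-- The curves of the set `𝒢`. -/
structure InGG (N : ℕ) (S : Finset ℤ) (p : ℤ × ℤ) : Prop where
  ell : 4 * p.1 ^ 3 + 27 * p.2 ^ 2 ≠ 0
  irr : ∀ t : ℚ, t ^ 3 + (p.1 : ℚ) * t + (p.2 : ℚ) ≠ 0
  odd : Odd p.1
  four : (4 : ℤ) ∣ p.1 - p.2
  good : ∀ (M : Type) [Field M] [NumberField M], InCls N S p.1 p.2 M →
    ∀ d : ℤ, (d % 4 = 1 ∨ d % 4 = 2) → Pool.Agent.K6.H88.TW.Adm N p.1 p.2 d →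
      GoodE M p.1 p.2 d

theorem twist_odd {N : ℕ} {p p' : ℤ × ℤ} (h : IsTwist N p p') (hA : Odd p.1)
    (hAB : (4 : ℤ) ∣ p.1 - p.2) : Odd p'.1 ∧ (4 : ℤ) ∣ p'.1 - p'.2 := by
  obtain ⟨d, rfl, hd4, -⟩ := h
  have hdo : Odd d := Int.odd_iff.2 (by omega)
  refine ⟨hA.mul hdo.pow, ?_⟩
  obtain ⟨i, hi⟩ := hAB
  obtain ⟨l, hl⟩ : ∃ l, d = 4 * l + 1 := ⟨d / 4, by omega⟩
  change (4 : ℤ) ∣ p.1 * d ^ 2 - p.2 * d ^ 3
  have e : p.1 * d ^ 2 - p.2 * d ^ 3 = 4 * (i * d ^ 2 - l * p.2 * d ^ 2) := by
    have h3 : p.1 * d ^ 2 - p.2 * d ^ 3 = (p.1 - p.2) * d ^ 2 - p.2 * d ^ 2 * (d - 1) := by ring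
    have h5 : d - 1 = 4 * l := by rw [hl]; ring
    rw [h3, hi, h5]
    ring
  rw [e]
  exact dvd_mul_right _ _

theorem inG_of {N : ℕ} {S : Finset ℤ} {p p' : ℤ × ℤ} (hp : InGG N S p) (h : IsTwist N p p')
    {M : Type} [Field M] [NumberField M] (hM : InCls N S p.1 p.2 M) : InG M p' := by
  obtain ⟨d, rfl, hd4, hd⟩ := h
  have hd0 : d ≠ 0 := by
    rintro rfl
    norm_num at hd4
  refine ⟨?_, goodC_of hp.odd hp.four hd4 (hp.good M hM d (Or.inl hd4) ⟨hd0, fun P hP hPd => ?_⟩)⟩
  · have e : 4 * (p.1 * d ^ 2) ^ 3 + 27 * (p.2 * d ^ 3) ^ 2 =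
        d ^ 6 * (4 * p.1 ^ 3 + 27 * p.2 ^ 2) := by ring
    change 4 * (p.1 * d ^ 2) ^ 3 + 27 * (p.2 * d ^ 3) ^ 2 ≠ 0
    rw [e]
    exact mul_ne_zero (pow_ne_zero _ hd0) hp.ell
  · obtain ⟨q, rfl⟩ : ∃ q : ℕ, P = q := ⟨P.toNat, by have := hP.1; omega⟩
    rcases hd q (Nat.prime_iff_prime_int.2 hP.2) hPd with h1 | h1
    · left
      exact_mod_cast h1
    · exact Or.inr h1

theorem good_of {N : ℕ} {S : Finset ℤ} (hS : ∀ Q ∈ S, IsPr Q ∧ Q % 8 = 1) :
    Good N (S.image Int.toNat) {p | InGG N S p} := by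
  have hS' : ∀ Q ∈ S, IsPr Q := fun Q hQ => (hS Q hQ).1
  have h2 : ∀ {p : ℤ × ℤ} {M : Type} [Field M] [NumberField M],
      InClass N (S.image Int.toNat) p M → ∀ 𝔭 : Ideal (𝓞 M), 𝔭.IsPrime → (2 : 𝓞 M) ∉ 𝔭 ^ 2 := by
    intro p M _ _ h 𝔭 h𝔭 h3
    exact h.two 𝔭 h𝔭 (by exact_mod_cast h3)
  refine ⟨fun r p p' hp ht M _ _ hM => sections_over_origin (h2 (hM 0)) p' fun i =>
      inG_of (hp i) (ht i) ((cls_iff hS').1 (hM i)),
    fun r p p' hp ht M _ _ hM K₀ _ _ _ X hX k L _ _ _ _ hk P hP => no_sections (h2 (hM 0))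
      (fun i => inG_of (hp i) (ht i) ((cls_iff hS').1 (hM i))) X hX hk P hP,
    fun p hp p' ht M _ _ hM => family (h2 hM) (inG_of hp ht ((cls_iff hS').1 hM)),
    ⟨admissible_neg_one, fun p hp p' ht => ?_⟩, fun p hp => ?_⟩
  · obtain ⟨hA, hAB⟩ := twist_odd ht hp.odd hp.four
    have hB : Odd p'.2 := by
      obtain ⟨k, hk⟩ := hA
      obtain ⟨l, hl⟩ := hAB
      rw [Int.odd_iff]
      omega
    have hB0 : p'.2 ≠ 0 := by
      rintro h
      rw [h] at hB
      exact absurd hB (by decide)
    exact ⟨SC.separable_r hA hB, SC.natDegree_r hB0⟩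
  · refine (inf_q hp.ell hp.irr hS).mono fun q hq => ⟨hq.1, ?_⟩
    obtain ⟨x, iF, iN, hcls, hx⟩ := quad_field (N := N) hS hq
    exact ⟨x, iF, iN, (cls_iff hS').2 hcls, hx⟩

end proofs

open Pool.Agent.N922.PQ (Ov IsPr)
open Pool.Agent.K6.H88.TC

/-- **The section conjecture for the curves over the products of a positive proportion of all elliptic
curves over `ℚ`**, over ALL fields `M` in the class of the curves and over the finitely generated
subfields of `M((T))`; the class contains the given Galois extension `K / ℚ` of 2-power degree in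
which `2` is unramified. -/
theorem result (N : ℕ) (K : Type) [Field K] [NumberField K] [IsGalois ℚ K] (n : ℕ)
    (hn : Module.finrank ℚ K = 2 ^ n) (h2 : Unramified K 2) :
    -- the curves `C_g` have smooth points over all completions of `ℚ`, for all `A`, `B`
    (∀ (p : ℤ × ℤ) (g : Polynomial ℤ), Admissible g →
      SmoothPoint ℝ (rpol p g) ∧ ∀ (q : ℕ) [Fact q.Prime], SmoothPoint ℚ_[q] (rpol p g)) ∧
    ∃ (S : Finset ℕ) (𝒢 : Set (ℤ × ℤ)), (∀ q ∈ S, q.Prime ∧ SplitsCompletely K q) ∧
      PositiveProportion 𝒢 ∧ (∀ p ∈ 𝒢, InClass N S p K) ∧ Good N S 𝒢 := by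
  have hset : ∀ X : ℕ, Curves X = {p : ℤ × ℤ | Pool.Agent.N922.PQ.Crv X p.1 p.2} := by
    intro X
    ext p
    exact (crv_iff X p).symm
  have hfin : ∀ X : ℕ, (Curves X).Finite := fun X => by
    rw [hset]
    exact Pool.Agent.N922.PQ.crv_fin X
  obtain ⟨S, hS, hKS, c, hc, X₀, h⟩ := mainE N K
  have hS' : ∀ Q ∈ S, IsPr Q := fun Q hQ => (hS Q hQ).1
  have hgood := good_of (N := N) hS
  refine ⟨fun p g hg => ⟨Pool.Agent.K6.H88.SC.points_real p.1 p.2 hg.coprime, fun q _ =>
    Pool.Agent.K6.H88.SC.points_padic p.1 p.2 hg.zero hg.coprime q⟩, S.image Int.toNat,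
    {p | InGG N S p ∧ InClass N (S.image Int.toNat) p K}, fun q hq => ?_, ⟨hfin, c, hc, ?_⟩,
    fun p hp => hp.2, ?_⟩
  · obtain ⟨Q, hQ, rfl⟩ := Finset.mem_image.1 hq
    obtain ⟨q, rfl⟩ : ∃ q : ℕ, Q = q := ⟨Q.toNat, by have := (hS' Q hQ).1; omega⟩
    have hqp : q.Prime := Nat.prime_iff_prime_int.2 (hS' _ hQ).2
    rw [Int.toNat_natCast]
    exact ⟨hqp, (spl_iff hqp.ne_zero).2 (hKS _ hQ)⟩
  · filter_upwards [eventually_ge_atTop (max X₀ 27)] with X hX
    refine ⟨(Set.ncard_pos (hfin X)).2 ⟨_, nonempty ((le_max_right _ _).trans hX)⟩, ?_⟩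
    have h1 := (h X ((le_max_left _ _).trans hX)).2
    rw [← hset] at h1
    refine h1.trans ?_
    have h3 : {p : ℤ × ℤ | Pool.Agent.N922.PQ.Crv X p.1 p.2 ∧
        ((∀ P : ℤ, IsPr P → ¬ Unr K P → NZ p.1 p.2 P) ∧
          (∀ P : ℤ, IsPr P → P ≤ N → NZ p.1 p.2 P) ∧
          (∀ t : ℚ, t ^ 3 + (p.1 : ℚ) * t + (p.2 : ℚ) ≠ 0) ∧
          (Odd p.1 ∧ (4 : ℤ) ∣ p.1 - p.2) ∧
          ∀ (M : Type) [Field M] [NumberField M], InCls N S p.1 p.2 M →
            ∀ d : ℤ, (d % 4 = 1 ∨ d % 4 = 2) → Pool.Agent.K6.H88.TW.Adm N p.1 p.2 d →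
              GoodE M p.1 p.2 d)} ⊆
        {p ∈ Curves X | p ∈ {p | InGG N S p ∧ InClass N (S.image Int.toNat) p K}} := by
      rintro p ⟨hp, hK, -, hirr, ⟨hA, hAB⟩, hall⟩
      have hKc : InCls N S p.1 p.2 K :=
        ⟨inferInstance, ⟨n, hn⟩, by exact_mod_cast (unr_iff two_ne_zero).1 h2, hKS,
          fun P hP hu => Or.inr (hK P hP hu)⟩
      exact ⟨(crv_iff X p).1 hp, ⟨hp.disc, hirr, hA, hAB, hall⟩, (cls_iff hS').2 hKc⟩
    have h4 := Set.ncard_le_ncard h3 ((hfin X).subset fun p hp => hp.1)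
    exact_mod_cast h4
  · exact ⟨fun r p p' hp => hgood.over_origin r p p' fun i => (hp i).1,
      fun r p p' hp => hgood.subvarieties r p p' fun i => (hp i).1,
      fun p hp => hgood.family p hp.1, ⟨hgood.genus.1, fun p hp => hgood.genus.2 p hp.1⟩,
      fun p hp => hgood.infinite p hp.1⟩

end Pool.Agent.Results.MP_e66f84_ag.EllipticPositiveProportion
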