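import Pool.Agent.K6.H56.AE7
import Pool.Agent.Results.MP_e66f84_ag.NormCurvesAnyField
import Pool.Agent.Results.MP_e66f84_ag.SuperellipticTwists

/-!
# The section conjecture for plane curves given by norm forms: almost all constants, all forms

Let `k` be any field finitely generated over `ℚ`, the fraction field of a domain `R` of characteristic
zero that is finitely generated as a ring.  We consider the plane curves of degree `d`

  `X : N_{E/k}(A₀ x₀ + A₁ x₁ + A₂ x₂) = a Q(x₀, x₁, x₂)ⁿ`,   `A₀, A₁, A₂ ∈ E`,  `a ∈ k`,

where `E/k` is an extension of degree `d`, `n | d`, and `Q` is a form of degree `d/n` over `k` which does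
not vanish at the points of intersection of the conjugate lines (this is part of the smoothness of `X`).
The `d` conjugate lines `σ(A₀) x₀ + σ(A₁) x₁ + σ(A₂) x₂ = 0` meet `X` with multiplicities divisible by
`n`; for `d = 4` and `n = 2` the curve `X` is a plane quartic for which they are four conjugate
bitangents (over an algebraically closed field every smooth plane quartic is of this form).  So these are
curves which are not hyperelliptic in general, and which are not twists of one another: not even the
branch data are fixed.

**Theorem** (for a fixed extension `E/k`).  Let `D ≥ 1` be such that some element of the absolute Galois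
group of `k` permutes the embeddings of `E = k(θ)` in cycles whose lengths are divisible by
`gcd(2, D) D`.  Then for all `a ∈ R` outside ONE set of density zero, which depends only on `E` and `D`,
the following is true for ALL `A_j ∈ E`, ALL `Q`, all `n | d` divisible by `D` and ALL finite extensions
`L` of `k` whose degree is not divisible by `D`: the curve `X` has no point over `L`, and the fundamental
groups of its open subcurves over `L` and of all smooth curves over `L` that dominate it have no sections
over the absolute Galois group of `L`.

For instance, if `E/k` is a quartic extension whose Galois closure has an element of order four (`D = 2`),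
then for almost all `a ∈ R` all the smooth plane quartics `N_{E/k}(A₀ x₀ + A₁ x₁ + A₂ x₂) = a Q²`, of
genus three, satisfy the section conjecture over all extensions of `k` of odd degree.

More generally we let the extension `E` vary with the parameter.  Let `A ∈ k[t]`, `A ≠ 0`, let
`F ∈ k[t][T]` be monic in `T` of degree `d`, and let `τ` be a value of the parameter, in `k` or algebraic
over `k`, such that `F(τ, T)` is separable and some element of the absolute Galois group of `k(τ)`
permutes its roots in cycles whose lengths are divisible by `gcd(2, D) D`.  Let `e` be the multiplicity of
the zero `τ` of `A`.  Then for all `t ∈ R` outside a set of density zero the assertion above holds for all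
fields `E` generated over `k` by a root of `F(t, T)`, for `a = A(t)` and for all finite extensions `L` of
`k` such that `D` does not divide `e [L : k]`.  The theorem for a fixed extension is the case `A = t`,
`τ = 0`, `F` constant.

The set of the exceptional `t` has density zero in a strong sense: for every `ε > 0` there is an ideal `I`
of `R` of finite index such that the exceptional `t` lie in at most `ε #(R/I)` residue classes modulo `I`.

The starting result `MP_e66f84_ag.NormCurvesAnyField`, from which the definitions are taken, is the local
theorem: it assumes that `k` has a discrete valuation ring such that `E` is unramified with residue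
degrees divisible by `gcd(2, D) D` and such that `D` does not divide `v(a) [L : k]`.  Here we show that
for almost all `a` (almost all members of a one-parameter family) there is such a discrete valuation
ring, for all fields `k` finitely generated over `ℚ`.

Proof.  As in `TwistedBadFibre` one specialises `k(τ)` to a number field `L`, such that for almost all
primes `v` of `L` there are embeddings of `k(τ)` in `L_v` which are congruent to the specialisation modulo
`v²`.  The specialisation keeps the Galois element with its cycles on the roots of `F(τ, T)`
(`exists_spec'`), and by Chebotarev's theorem there are many unramified primes `v` of degree one, above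
different rational primes `p`, modulo which all the irreducible factors of `F(τ, T)` have degrees
divisible by `gcd(2, D) D` (`primes2`).  A proportion `1/p - 1/p²` of all `t ∈ R` is such that `t - τ` has
valuation one at `v`.  Then the valuation ring of `k` given by `L_v` has the properties above for `F(t, T)`
and `A(t)`.  The sum of the `1/p` diverges.
-/

set_option autoImplicit false

open Polynomial

namespace Pool.Agent.Results.MP_e66f84_ag.NormCurvesInFamilies

open Pool.Agent.Results.MP_e66f84_ag.NormCurvesAnyField (NothingOver GeneratedByRoot HasValue
  local_statement)
open Pool.Agent.Results.MP_e66f84_ag.SuperellipticTwists (DensityZero)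

universe v w x y

/-- The polynomial `F(t, T)` over `K`, for `F ∈ k[t][T]` (the outer variable is `T`) and an element `t`
of an extension field `K` of `k`. -/
noncomputable def fibre {k : Type} [Field k] (F : k[X][X]) {K : Type} [Field K] [Algebra k K] (t : K) :
    K[X] :=
  F.map (aeval (R := k) t).toRingHom

/-- Some element of the absolute Galois group of `K` permutes the roots of `f` in cycles whose lengths
are divisible by `N`: if its `n`-th power fixes a root, then `N` divides `n`. -/
def CyclesDivisible {K : Type} [Field K] (N : ℕ) (f : K[X]) : Prop :=
  ∃ σ : AlgebraicClosure K ≃ₐ[K] AlgebraicClosure K,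
    ∀ θ : AlgebraicClosure K, aeval θ f = 0 → ∀ n : ℕ, (σ ^ n) θ = θ → N ∣ n

/-- The elements `t` of `R` which do not have the following property: `A(t)` is not zero, `F(t, T)` is
separable, and for all fields `E` generated over `k` by a root of `F(t, T)` (so that the degree `d` of
`E/k` is the degree of `F`), all finite extensions `L` of `k` such that `D` does not divide `e [L : k]`,
all `n | d` divisible by `D`, all `A₀, A₁, A₂ ∈ E` and all forms `Q` of degree `d/n` over `k` that do not
vanish at the points of intersection of the conjugate lines, the curve
`N_{E/k}(A₀ x₀ + A₁ x₁ + A₂ x₂) = A(t) Qⁿ` has no point and no section over `L`. -/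
def Exceptional (R : Type) [CommRing R] {k : Type} [Field k] [Algebra R k] (A : k[X]) (F : k[X][X])
    (D e : ℕ) : Set R :=
  {t | ¬ (A.eval (algebraMap R k t) ≠ 0 ∧ (fibre F (algebraMap R k t)).Separable ∧
    ∀ (E : Type x) [Field E] [Algebra k E] [FiniteDimensional k E] (θ : E),
      GeneratedByRoot (fibre F (algebraMap R k t)) θ →
        NothingOver.{0, v, w, x, y} E D F.natDegree (A.eval (algebraMap R k t)) e)}

lemma fibre_eq {k : Type} [Field k] (F : k[X][X]) (t : k) : fibre F t = F.map (evalRingHom t) := by
  unfold fibre
  congr 1

/-- Let `R` be a domain of characteristic zero that is finitely generated as a ring, with fraction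
field `k`; so `k` is any field finitely generated over `ℚ`.  Let `A ∈ k[t]`, `A ≠ 0`, and let
`F ∈ k[t][T]` be monic of degree `d ≥ 1` in `T`.  Let `τ` be a generator of an extension `K = k(τ)` of `k`
such that `F(τ, T)` is separable and some element of the absolute Galois group of `K` permutes its roots
in cycles whose lengths are divisible by `gcd(2, D) D`, and let `e` be the multiplicity of the zero `τ` of
`A`.  Then for all `t ∈ R` outside a set of density zero: for all fields `E` generated over `k` by a root
of `F(t, T)`, all finite extensions `L` of `k` such that `D` does not divide `e [L : k]`, all `n | d`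
divisible by `D`, all `A₀, A₁, A₂ ∈ E` and all forms `Q` of degree `d/n` over `k` that do not vanish at the
points of intersection of the conjugate lines, the plane curve
`N_{E/k}(A₀ x₀ + A₁ x₁ + A₂ x₂) = A(t) Qⁿ` has no point over `L`, and the fundamental groups of its open
subcurves over `L` and of all smooth curves over `L` that dominate it have no sections. -/
theorem result (R : Type) [CommRing R] [IsDomain R] [CharZero R] [Algebra.FiniteType ℤ R]
    (k : Type) [Field k] [Algebra R k] [IsFractionRing R k] (A : k[X]) (hA : A ≠ 0) (F : k[X][X])
    (hF : F.Monic) (hd : 0 < F.natDegree) (K : Type) [Field K] [Algebra k K] (τ : K)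
    (hτ : IntermediateField.adjoin k {τ} = (⊤ : IntermediateField k K))
    (hsep : (fibre F τ).Separable) (D : ℕ) (hD : D ≠ 0)
    (h : CyclesDivisible (Nat.gcd 2 D * D) (fibre F τ)) :
    DensityZero (Exceptional.{v, w, x, y} R A F D (rootMultiplicity τ (A.map (algebraMap k K)))) := by
  have hcz : CharZero k := charZero_of_injective_algebraMap (IsFractionRing.injective R k)
  obtain ⟨σ, hσ⟩ := h
  intro ε hε
  obtain ⟨I, hI, hIE⟩ := Pool.Agent.K6.H56.AE.density_gp_alg (R := R) K τ hτ A hA F hd 1 one_ne_zero
    (hF.natDegree_map _) hsep (fun n => Nat.gcd 2 D * D ∣ n) σ hσ ε hε
  refine ⟨I, hI, le_trans ?_ hIE⟩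
  refine Nat.cast_le.2 (Set.ncard_le_ncard (Set.image_mono ?_) (Set.toFinite _))
  intro t ht hgood
  apply ht
  rw [← fibre_eq] at hgood
  obtain ⟨h1, -, h3, d, hd0, hgp⟩ := hgood
  refine ⟨h1, h3, ?_⟩
  intro E _ _ _ θ hθ
  obtain ⟨O, hO, κ, i1, i2, ρ, g, ϖ, u, hρ, hgf, hg, hgs, hgS, hϖ, hu, hau, -⟩ :=
    hgp.monic (hF.map _) hd0
  have h5 := local_statement.{0, v, w, x, y, 0} k O κ ρ hρ g hg hgs E θ (by rwa [hgf]) D hD
    (fun q hq hqg => hgS q hq hqg) (A.eval (algebraMap R k t))
    (rootMultiplicity τ (A.map (algebraMap k K)) : ℕ) ⟨ϖ, u, hϖ, hu, by rw [zpow_natCast]; exact hau⟩
  have h6 : g.natDegree = F.natDegree := by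
    rw [← hg.natDegree_map (algebraMap O k), hgf]
    exact hF.natDegree_map _
  rwa [h6] at h5

end Pool.Agent.Results.MP_e66f84_ag.NormCurvesInFamilies
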