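import Pool.Agent.K6.H56.TF7
import Pool.Agent.Results.MP_e66f84_ag.SuperellipticTwists

/-!
# Almost all fibres of a one-parameter family of curves with one twisted bad fibre have no sections

Let `k` be any field finitely generated over `ℚ`, the fraction field of a domain `R` of characteristic
zero that is finitely generated as a ring.  Consider a one-parameter family of superelliptic curves

  `X_t :  A(t) yⁿ = F(t, x)`,  `A ∈ k[t]`, `F ∈ k[t][x]` of degree `m ≥ 3` in `x`.

Suppose that there is ONE value `τ` of the parameter (in `k` or algebraic over `k`) which is a zero of
`A`, of multiplicity `e`, such that `F(τ, x)` is still separable of degree `m` and some element of the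
absolute Galois group of `k(τ)` fixes no root of `F(τ, x)`; this is so if `F(τ, x)` is irreducible over
`k(τ)`.  So at `t = τ` the family is a ramified twist of a family with good reduction.

**Theorem.** For all `t ∈ R` outside a set of density zero and for all `n ≥ 1` that have a common prime
factor with `m` which does not divide `e` (for a simple zero of `A`: for all `n` not coprime to `m`), the
curve `X_t` has no point over `k`, and its fundamental group has no section, also when any set of closed
points is removed. So 100% of the curves of such a family, and all smooth curves over `k` that dominate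
one of them, satisfy the section conjecture. For the prime numbers `ℓ` that divide `m` and not `e`
already the geometrically pro-`ℓ` fundamental group of `A(t) y^ℓ = F(t, x)` has no section.

The set of the exceptional `t` has density zero in the strong sense of
`MP_e66f84_ag.SuperellipticTwists`: for every `ε > 0` there is an ideal `I` of `R` of finite index such
that the exceptional `t` lie in at most `ε #(R/I)` residue classes modulo `I`.

The family `A(t) = t`, `F(t, x) = f(x)`, `τ = 0` of all twists of one curve is the starting result
`MP_e66f84_ag.SuperellipticTwists`, from which the definitions are taken. The other starting results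
(`SuperellipticFamilies`, `RandomOrbits`) vary all the coefficients of the curve. New are the arbitrary
one-parameter families, in which the branch points vary as well, for instance `t yⁿ = F(t, x)` with
`F(0, x)` irreducible, and the sparse families of twists `A(t) yⁿ = f(x)`, for instance
`(t² + 1) y² = f(x)` or `(t³ - 2) yⁿ = f(x)` over `ℚ`.

Proof.  Let `R₁` be a finitely generated subring with fraction field `k₁ = k(τ)` that contains `R` and
`τ`. As in the starting files, one specialises `k₁` to a number field `L`: there is `P : R₁ → L` such
that for almost all primes `v` of `L` there is an embedding `ψ` of `k₁` in `L_v` with `ψ(r) ≡ P(r)`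
modulo `v²` for all `r ∈ R₁`, and `F(τ, x)` keeps a Galois element without fixed roots over `L`. By
Chebotarev's theorem there are many unramified primes `v` of degree one of `L`, above different rational
primes `p`, modulo which `F(τ, x)` is separable of degree `m` without roots (`primes1`). As `v` has degree
one, already the integers fill the residue classes modulo `v²`, although `τ` is not in `R`; so a
proportion `1/p - 1/p²` of all `t ∈ R`, independently for the different `v`, is such that `t - τ` has
valuation one at `v`. For these `t` the polynomial `F(t, x)` is congruent to `F(τ, x)` modulo `v` and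
`A(t)` has valuation `e`, and the local theorem of the starting files applies. The sum of the `1/p`
diverges.
-/

set_option autoImplicit false

open Polynomial

namespace Pool.Agent.Results.MP_e66f84_ag.TwistedBadFibre

open Pool.Agent.Results.MP_e66f84_ag.SuperellipticTwists
  (NoPoint NoSection NoProEllSection HasDerangement DensityZero of_fine proEll_eq)

/-- The polynomial `F(t, x)` over `K`, for `F ∈ k[t][x]` (the outer variable is `x`) and an element `t`
of an extension field `K` of `k`. -/
noncomputable def fibre {k : Type} [Field k] (F : k[X][X]) {K : Type} [Field K] [Algebra k K] (t : K) :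
    K[X] :=
  F.map (aeval (R := k) t).toRingHom

/-- The elements `t` of `R` which do not have the following property: `A(t)` is not zero, `F(t, x)` is
separable of the same degree `m` as `F`; for all `n ≥ 1` which have a common prime factor `ℓ` with `m`
that does not divide `e` the curve `A(t) yⁿ = F(t, x)` over `k` has neither points nor sections; and for
all prime numbers `ℓ` that divide `m` and not `e` the geometrically pro-`ℓ` fundamental group of the curve
`A(t) y^ℓ = F(t, x)` has no section. -/
def Exceptional (R : Type) [CommRing R] {k : Type} [Field k] [Algebra R k] (A : k[X]) (F : k[X][X])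
    (e : ℕ) : Set R :=
  {t | ¬ (A.eval (algebraMap R k t) ≠ 0 ∧ (fibre F (algebraMap R k t)).natDegree = F.natDegree ∧
    (fibre F (algebraMap R k t)).Separable ∧
    (∀ n : ℕ, 0 < n → (∃ ℓ : ℕ, ℓ.Prime ∧ ℓ ∣ n ∧ ℓ ∣ F.natDegree ∧ ¬ ℓ ∣ e) →
      NoPoint n (A.eval (algebraMap R k t)) (fibre F (algebraMap R k t)) ∧
      NoSection n (A.eval (algebraMap R k t)) (fibre F (algebraMap R k t))) ∧
    ∀ ℓ : ℕ, ℓ.Prime → ℓ ∣ F.natDegree → ¬ ℓ ∣ e →
      NoProEllSection ℓ (A.eval (algebraMap R k t)) (fibre F (algebraMap R k t)))}

lemma fibre_eq {k : Type} [Field k] (F : k[X][X]) (t : k) : fibre F t = F.map (evalRingHom t) := by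
  unfold fibre
  congr 1

/-- Let `R` be a domain of characteristic zero that is finitely generated as a ring, with fraction
field `k`; so `k` is any field finitely generated over `ℚ`.  Let `A ∈ k[t]`, `A ≠ 0`, and let
`F ∈ k[t][x]` have degree `m ≥ 3` in `x`.  Let `τ` be an element of an extension field of `k` such that
`F(τ, x)` is separable of degree `m` and irreducible over `K = k(τ)` or, more generally, has a Galois
group over `K` with an element that fixes no root, and let `e` be the multiplicity of the zero `τ` of
`A`.  Then for all `t ∈ R` outside a set of density zero: `A(t) ≠ 0`, `F(t, x)` is separable of degree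
`m`; for all `n ≥ 1` which have a common prime factor with `m` that does not divide `e`, the smooth
projective curve with the affine equation `A(t) yⁿ = F(t, x)` has no point over `k`, and the fundamental
groups of its open subcurves and of all smooth curves over `k` that dominate it have no sections; and for
all prime numbers `ℓ` that divide `m` and not `e` the geometrically pro-`ℓ` fundamental group of the curve
`A(t) y^ℓ = F(t, x)` has no section. -/
theorem result (R : Type) [CommRing R] [IsDomain R] [CharZero R] [Algebra.FiniteType ℤ R]
    (k : Type) [Field k] [Algebra R k] [IsFractionRing R k] (A : k[X]) (hA : A ≠ 0) (F : k[X][X])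
    (h3 : 3 ≤ F.natDegree) (K : Type) [Field K] [Algebra k K] (τ : K)
    (hτ : IntermediateField.adjoin k {τ} = (⊤ : IntermediateField k K))
    (hdeg : (fibre F τ).natDegree = F.natDegree) (hsep : (fibre F τ).Separable)
    (h : Irreducible (fibre F τ) ∨ HasDerangement (fibre F τ)) :
    DensityZero (Exceptional R A F (rootMultiplicity τ (A.map (algebraMap k K)))) := by
  have hcz : CharZero k := charZero_of_injective_algebraMap (IsFractionRing.injective R k)
  have hczK : CharZero K := charZero_of_injective_algebraMap (algebraMap k K).injective
  have hσ : HasDerangement (fibre F τ) := by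
    rcases h with h | h
    · exact Pool.Agent.W52.SecC.D3.partD3 K (fibre F τ) h (by omega)
    · exact h
  intro ε hε
  obtain ⟨I, hI, hIE⟩ := Pool.Agent.K6.H56.TF.density_alg (R := R) K τ hτ A hA F h3 hdeg hsep hσ ε hε
  refine ⟨I, hI, le_trans ?_ hIE⟩
  refine Nat.cast_le.2 (Set.ncard_le_ncard (Set.image_mono ?_) (Set.toFinite _))
  intro t ht hgood
  apply ht
  rw [← fibre_eq] at hgood
  obtain ⟨h1, h2, h4, hfine⟩ := hgood
  refine ⟨h1, h2, h4, ?_, ?_⟩
  · rintro n - ⟨ℓ, hℓ, hℓn, hℓd, hℓe⟩
    exact of_fine ℓ _ _ (hfine ℓ hℓ hℓd hℓe) n hℓn (by rwa [h2])
  · intro ℓ hℓ hℓd hℓe F' Ω _ _ _ _ _ _ _ x y hx hxy hF N hN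
    have hcl : IsAlgClosed Ω := IsAlgClosure.isAlgClosed F'
    have halg : Algebra.IsAlgebraic F' Ω := IsAlgClosure.isAlgebraic
    rw [proEll_eq] at hN
    exact ⟨fun s => (hfine ℓ hℓ hℓd hℓe).1 F' Ω x y hx hxy hF N hN s.toHom s.cont s.compat⟩

end Pool.Agent.Results.MP_e66f84_ag.TwistedBadFibre
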